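import Mathlib

set_option autoImplicit false

open Finset

namespace RB496

open Classical in
theorem exists_in {V : Type} [DecidableEq V] (E : V → V → Prop) (W : Finset V) (hW : W.Nonempty)
    (r : ℕ) (h : ∀ x ∈ W, r ≤ #{y ∈ W | E x y}) : ∃ u ∈ W, r ≤ #{y ∈ W | E y u} := by
  by_contra hcon
  push Not at hcon
  have h1 : ∑ x ∈ W, #{y ∈ W | E x y} = ∑ u ∈ W, #{y ∈ W | E y u} := by
    simp only [Finset.card_filter]
    exact Finset.sum_comm
  have h2 : ∑ u ∈ W, #{y ∈ W | E y u} < ∑ u ∈ W, r := Finset.sum_lt_sum_of_nonempty hW hcon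
  have h3 : ∑ u ∈ W, r ≤ ∑ x ∈ W, #{y ∈ W | E x y} := Finset.sum_le_sum h
  omega

end RB496
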