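import Mathlib

set_option autoImplicit false

open Finset

namespace RB496

/-- rainbow walks: `RW E M x y` says there is a walk from `x` to `y` with distinct labels, of label set `M` -/
inductive RW {ι V : Type} [DecidableEq ι] (E : ι → V → V → Prop) : Finset ι → V → V → Prop
  | one (i : ι) (x y : V) : E i x y → RW E {i} x y
  | cons (i : ι) (M : Finset ι) (x y z : V) : E i x y → i ∉ M → RW E M y z → RW E (insert i M) x z

theorem rw_append {ι V : Type} [DecidableEq ι] (E : ι → V → V → Prop) (M1 M2 : Finset ι)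
    (x y z : V) (h1 : RW E M1 x y) (h2 : RW E M2 y z) (hd : Disjoint M1 M2) :
    RW E (M1 ∪ M2) x z := by
  induction h1 with
  | one i x y hE =>
    rw [← insert_eq]
    exact RW.cons i M2 x y z hE (disjoint_singleton_left.mp hd) h2
  | cons i M x y w hE hiM hw ih =>
    rw [insert_union]
    rw [disjoint_insert_left] at hd
    refine RW.cons i (M ∪ M2) x y z hE ?_ (ih h2 hd.2)
    rw [mem_union, not_or]
    exact ⟨hiM, hd.1⟩

theorem virt_aux {ι V : Type} [DecidableEq ι] (E E' : ι → V → V → Prop) (a b : ι) (hab : a ≠ b)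
    (u : V) (hE' : ∀ i x y, E' i x y → i ≠ a → i ≠ b →
      E i x y ∨ ((E i x u ∨ ∃ z, E i x z ∧ E b z u) ∧ E a u y))
    (M : Finset ι) (x y : V) (h : RW E' M x y) : a ∉ M → b ∉ M →
    RW E M x y ∨ ∃ L1 L2 M1 M2 : Finset ι, Disjoint L1 L2 ∧ L1 ⊆ M ∧ L2 ⊆ M ∧
      M1 ⊆ insert b L1 ∧ M2 ⊆ insert a L2 ∧ RW E M1 x u ∧ RW E M2 u y := by
  have hone : ∀ i x, i ≠ b → (E i x u ∨ ∃ z, E i x z ∧ E b z u) →
      ∃ M1 : Finset ι, M1 ⊆ insert b {i} ∧ RW E M1 x u := by
    intro i x hib h
    rcases h with h | ⟨z, hz1, hz2⟩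
    · exact ⟨{i}, subset_insert _ _, RW.one i x u h⟩
    · refine ⟨insert i {b}, ?_, RW.cons i {b} x z u hz1 (by simpa using hib) (RW.one b z u hz2)⟩
      intro j hj
      simp only [mem_insert, mem_singleton] at hj ⊢
      tauto
  induction h with
  | one i x y hE =>
    intro ha hb
    have hia : i ≠ a := fun h => ha (by rw [h]; exact mem_singleton_self _)
    have hib : i ≠ b := fun h => hb (by rw [h]; exact mem_singleton_self _)
    rcases hE' i x y hE hia hib with h | ⟨h1, h2⟩
    · exact Or.inl (RW.one i x y h)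
    · right
      obtain ⟨M1, hM1, hw1⟩ := hone i x hib h1
      exact ⟨{i}, ∅, M1, {a}, disjoint_empty_right _, Subset.refl _, empty_subset _, hM1,
        by simp, hw1, RW.one a u y h2⟩
  | cons i M x y z hE hiM hw ih =>
    intro ha hb
    rw [mem_insert, not_or] at ha hb
    have hia : i ≠ a := fun h => ha.1 h.symm
    have hib : i ≠ b := fun h => hb.1 h.symm
    rcases hE' i x y hE hia hib with h | ⟨h1, h2⟩
    · rcases ih ha.2 hb.2 with h3 | ⟨L1, L2, M1, M2, hd, hL1, hL2, hM1, hM2, hw1, hw2⟩
      · exact Or.inl (RW.cons i M x y z h hiM h3)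
      · right
        refine ⟨insert i L1, L2, insert i M1, M2, ?_, insert_subset_insert _ hL1,
          hL2.trans (subset_insert _ _), ?_, hM2, ?_, hw2⟩
        · rw [disjoint_insert_left]
          exact ⟨fun h' => hiM (hL2 h'), hd⟩
        · intro j hj
          rcases mem_insert.mp hj with h' | h'
          · rw [h']; exact mem_insert_of_mem (mem_insert_self _ _)
          · rcases mem_insert.mp (hM1 h') with h'' | h''
            · rw [h'']; exact mem_insert_self _ _
            · exact mem_insert_of_mem (mem_insert_of_mem h'')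
        · refine RW.cons i M1 x y u h ?_ hw1
          intro h'
          rcases mem_insert.mp (hM1 h') with h'' | h''
          · exact hib h''
          · exact hiM (hL1 h'')
    · right
      obtain ⟨M1, hM1, hw1⟩ := hone i x hib h1
      rcases ih ha.2 hb.2 with h3 | ⟨L1, L2, N1, N2, hd, hL1, hL2, hN1, hN2, hw3, hw4⟩
      · refine ⟨{i}, M, M1, insert a M, disjoint_singleton_left.mpr hiM, ?_, subset_insert _ _,
          hM1, Subset.refl _, hw1, RW.cons a M u y z h2 ha.2 h3⟩
        exact singleton_subset_iff.mpr (mem_insert_self _ _)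
      · refine ⟨{i}, L2, M1, N2, disjoint_singleton_left.mpr (fun h' => hiM (hL2 h')), ?_,
          hL2.trans (subset_insert _ _), hM1, hN2, hw1, hw4⟩
        exact singleton_subset_iff.mpr (mem_insert_self _ _)

theorem virt_closed {ι V : Type} [DecidableEq ι] (E E' : ι → V → V → Prop) (a b : ι) (hab : a ≠ b)
    (u : V) (hE' : ∀ i x y, E' i x y → i ≠ a → i ≠ b →
      E i x y ∨ ((E i x u ∨ ∃ z, E i x z ∧ E b z u) ∧ E a u y))
    (M : Finset ι) (ha : a ∉ M) (hb : b ∉ M) (x : V) (h : RW E' M x x) :
    ∃ (x' : V) (M' : Finset ι), M' ⊆ insert a (insert b M) ∧ RW E M' x' x' := by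
  rcases virt_aux E E' a b hab u hE' M x x h ha hb with
    h3 | ⟨L1, L2, M1, M2, hd, hL1, hL2, hM1, hM2, hw1, hw2⟩
  · exact ⟨x, M, (subset_insert _ _).trans (subset_insert _ _), h3⟩
  · refine ⟨u, M2 ∪ M1, ?_, rw_append E M2 M1 u x u hw2 hw1 ?_⟩
    · intro j hj
      rcases mem_union.mp hj with h' | h'
      · rcases mem_insert.mp (hM2 h') with h'' | h''
        · rw [h'']; exact mem_insert_self _ _
        · exact mem_insert_of_mem (mem_insert_of_mem (hL2 h''))
      · rcases mem_insert.mp (hM1 h') with h'' | h''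
        · rw [h'']; exact mem_insert_of_mem (mem_insert_self _ _)
        · exact mem_insert_of_mem (mem_insert_of_mem (hL1 h''))
    · rw [disjoint_left]
      intro j h2 h1
      rcases mem_insert.mp (hM2 h2) with h' | h'
      · rcases mem_insert.mp (hM1 h1) with h'' | h''
        · exact hab (h'.symm.trans h'')
        · rw [h'] at h''; exact ha (hL1 h'')
      · rcases mem_insert.mp (hM1 h1) with h'' | h''
        · rw [h''] at h'; exact hb (hL2 h')
        · exact (disjoint_left.mp hd h'') h'

end RB496
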