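import Mathlib
import Pool.Agent.Helper496.RB.Virt

set_option autoImplicit false

open Finset

namespace RB496



theorem rw_fun {ι V : Type} [DecidableEq ι] (E : ι → V → V → Prop) (M : Finset ι) (x y : V)
    (h : RW E M x y) : ∃ (p : ℕ) (c : ℕ → V) (l : ℕ → ι), 1 ≤ p ∧ c 0 = x ∧ c p = y ∧
      (∀ i < p, l i ∈ M) ∧ (∀ i < p, ∀ j < p, l i = l j → i = j) ∧ ∀ j < p, E (l j) (c j) (c (j + 1)) := by
  induction h with
  | one i x y hE =>
    refine ⟨1, fun n => if n = 0 then x else y, fun _ => i, le_rfl, by simp, by simp, ?_, ?_, ?_⟩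
    · intro j _; simp
    · intro a ha b hb _; omega
    · intro j hj
      have : j = 0 := by omega
      subst this
      simpa using hE
  | cons i M x y z hE hi _ ih =>
    obtain ⟨p, c, l, hp, hc0, hcp, hl, hinj, hEd⟩ := ih
    refine ⟨p + 1, fun n => if n = 0 then x else c (n - 1), fun n => if n = 0 then i else l (n - 1),
      by omega, by simp, by simpa using hcp, ?_, ?_, ?_⟩
    · intro j hj
      by_cases h0 : j = 0
      · simp [h0]
      · simp only [h0, if_false]
        exact Finset.mem_insert_of_mem (hl _ (by omega))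
    · intro a ha b hb hab
      by_cases h0 : a = 0
      · by_cases h1 : b = 0
        · omega
        · simp only [h0, h1, if_true, if_false] at hab
          exact absurd (hab ▸ hl (b - 1) (by omega)) hi
      · by_cases h1 : b = 0
        · simp only [h0, h1, if_true, if_false] at hab
          exact absurd (hab ▸ hl (a - 1) (by omega)) hi
        · simp only [h0, h1, if_false] at hab
          have := hinj (a - 1) (by omega) (b - 1) (by omega) hab
          omega
    · intro j hj
      by_cases h0 : j = 0
      · subst h0
        simpa [hc0] using hE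
      · have h1 : j + 1 ≠ 0 := by omega
        simp only [h0, h1, if_false]
        have := hEd (j - 1) (by omega)
        have e : j - 1 + 1 = j + 1 - 1 := by omega
        rw [e] at this
        exact this

/-- a closed walk with distinct labels contains a cycle with distinct labels -/
theorem rainbow_extract {ι V : Type} [DecidableEq ι] (E : ι → V → V → Prop)
    (hloop : ∀ i v, ¬ E i v v) (M : Finset ι) (x : V) (h : RW E M x x) :
    ∃ (m : ℕ) (c : Fin (m + 2) → V) (l : Fin (m + 2) → ι), Function.Injective c ∧
      Function.Injective l ∧ ∀ j, E (l j) (c j) (c (j + 1)) := by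
  classical
  let CW : ℕ → Prop := fun p => 1 ≤ p ∧ ∃ (c : ℕ → V) (l : ℕ → ι), c 0 = c p ∧
    (∀ i < p, ∀ j < p, l i = l j → i = j) ∧ ∀ j < p, E (l j) (c j) (c (j + 1))
  have hex : ∃ p, CW p := by
    obtain ⟨p, c, l, hp, hc0, hcp, _, hinj, hEd⟩ := rw_fun E M x x h
    exact ⟨p, hp, c, l, by rw [hc0, hcp], hinj, hEd⟩
  obtain ⟨hp1, c, l, hc, hinj, hEd⟩ := Nat.find_spec hex
  have hmin : ∀ q, q < Nat.find hex → ¬ CW q := fun q hq => Nat.find_min hex hq
  set p := Nat.find hex with hpdef
  have hcinj : ∀ a b, a < b → b < p → c a ≠ c b := by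
    intro a b hab hb he
    refine hmin (b - a) (by omega) ⟨by omega, fun n => c (a + n), fun n => l (a + n), ?_, ?_, ?_⟩
    · show c (a + 0) = c (a + (b - a))
      have : a + (b - a) = b := by omega
      rw [this, add_zero]
      exact he
    · intro i hi j hj hij
      have := hinj (a + i) (by omega) (a + j) (by omega) hij
      omega
    · intro j hj
      exact hEd (a + j) (by omega)
  have hp2 : p ≠ 1 := by
    intro h1
    rw [h1] at hc hEd
    have := hEd 0 (by omega)
    rw [zero_add, ← hc] at this
    exact hloop _ _ this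
  obtain ⟨m, hm⟩ : ∃ m, p = m + 2 := ⟨p - 2, by omega⟩
  refine ⟨m, fun j => c j.val, fun j => l j.val, ?_, ?_, ?_⟩
  · intro a b hab
    apply Fin.ext
    by_contra hne
    rcases lt_or_gt_of_ne hne with h1 | h1
    · exact hcinj _ _ h1 (by omega) hab
    · exact hcinj _ _ h1 (by omega) hab.symm
  · intro a b hab
    apply Fin.ext
    exact hinj _ (by omega) _ (by omega) hab
  · intro j
    have h1 := hEd j.val (by omega)
    have h2 : c ((j + 1 : Fin (m + 2)).val) = c (j.val + 1) := by
      rw [Fin.val_add_one]
      split_ifs with hj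
      · have : j.val + 1 = p := by rw [hj, Fin.val_last, hm]
        rw [this]
        exact hc
      · rfl
    show E (l j.val) (c j.val) (c ((j + 1 : Fin (m + 2)).val))
    rw [h2]
    exact h1

end RB496
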