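import Mathlib
import Pool.Agent.Helper496.RB.Virt
import Pool.Agent.Helper496.RB.Avg

set_option autoImplicit false

open Finset

namespace RB496

open Classical in
theorem main_ind {ι V : Type} [DecidableEq ι] [DecidableEq V] (r : ι → ℕ) : ∀ (N : ℕ)
    (W : Finset V) (L : Finset ι) (E : ι → V → V → Prop) (M : ℕ), #W ≤ N → W.Nonempty →
    (∀ i ∈ L, 1 ≤ r i) → (∀ i ∈ L, r i ≤ M) → (∀ i ∈ L, ∀ x ∈ W, r i ≤ #{y ∈ W | E i x y}) →
    2 * #W + M + 1 ≤ ∑ i ∈ L, (r i + 1) →
    ∃ (x : V) (K : Finset ι), K ⊆ L ∧ RW E K x x := by
  intro N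
  induction N with
  | zero =>
    intro W L E M hN hW
    have := Finset.card_pos.2 hW
    omega
  | succ N ih =>
    intro W L E M hN hW h1 hM hdeg hsum
    by_cases hl : ∃ i ∈ L, ∃ x ∈ W, E i x x
    · obtain ⟨i, hi, x, _, hx⟩ := hl
      exact ⟨x, {i}, by simpa using hi, RW.one i x x hx⟩
    push Not at hl
    have hWpos := Finset.card_pos.2 hW
    have hL : L.Nonempty := by
      rw [Finset.nonempty_iff_ne_empty]
      rintro rfl
      simp at hsum
    obtain ⟨a, haL, hamax⟩ := Finset.exists_max_image L r hL
    have hsa := Finset.add_sum_erase L (fun i => r i + 1) haL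
    have hLa : (L.erase a).Nonempty := by
      rw [Finset.nonempty_iff_ne_empty]
      intro h0
      rw [h0] at hsa
      simp only [Finset.sum_empty] at hsa
      have := hM a haL
      omega
    obtain ⟨b, hbL', hbmax⟩ := Finset.exists_max_image (L.erase a) r hLa
    have hsb := Finset.add_sum_erase (L.erase a) (fun i => r i + 1) hbL'
    have hbL : b ∈ L := Finset.mem_of_mem_erase hbL'
    have hba : b ≠ a := Finset.ne_of_mem_erase hbL'
    obtain ⟨u, huW, hu⟩ := exists_in (E b) W hW (r b) (fun x hx => by
      convert hdeg b hbL x hx)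
    obtain ⟨R, hRsub, hRcard⟩ := Finset.exists_subset_card_eq hu
    have hR : ∀ y ∈ R, y ∈ W ∧ E b y u := by
      intro y hy
      have := hRsub hy
      rw [Finset.mem_filter] at this
      exact this
    have huR : u ∉ R := fun h => hl b hbL u huW (hR u h).2
    by_cases h2 : ∃ y ∈ insert u R, E a u y
    · obtain ⟨y, hy, hay⟩ := h2
      rw [Finset.mem_insert] at hy
      rcases hy with rfl | hy
      · exact absurd hay (hl a haL y huW)
      · refine ⟨u, insert a {b}, ?_, RW.cons a {b} u y u hay ?_ (RW.one b y u (hR y hy).2)⟩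
        · intro i hi
          rw [Finset.mem_insert, Finset.mem_singleton] at hi
          rcases hi with rfl | rfl
          · exact haL
          · exact hbL
        · rw [Finset.mem_singleton]
          exact fun h => hba h.symm
    push Not at h2
    set X := insert u R with hX
    have hXW : X ⊆ W := by
      intro y hy
      rw [hX, Finset.mem_insert] at hy
      rcases hy with rfl | hy
      · exact huW
      · exact (hR y hy).1
    have hXcard : #X = r b + 1 := by rw [hX, Finset.card_insert_of_notMem huR, hRcard]
    have hWX : #(W \ X) + (r b + 1) = #W := by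
      rw [← hXcard]
      exact Finset.card_sdiff_add_card_eq_card hXW
    let E' : ι → V → V → Prop := fun i x y =>
      E i x y ∨ ((E i x u ∨ ∃ z, E i x z ∧ E b z u) ∧ E a u y)
    have hNa : ({y ∈ W | E a u y} : Finset V) ⊆ W \ X := by
      intro y hy
      rw [Finset.mem_filter] at hy
      rw [Finset.mem_sdiff]
      exact ⟨hy.1, fun hyX => h2 y hyX hy.2⟩
    have hne : (W \ X).Nonempty := by
      have h3 := hdeg a haL u huW
      have h4 := h1 a haL
      have h5 := Finset.card_le_card hNa
      rw [← Finset.card_pos]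
      omega
    have hdeg' : ∀ i ∈ (L.erase a).erase b, ∀ x ∈ W \ X, r i ≤ #{y ∈ W \ X | E' i x y} := by
      intro i hi x hx
      have hiLa : i ∈ L.erase a := Finset.mem_of_mem_erase hi
      have hiL : i ∈ L := Finset.mem_of_mem_erase hiLa
      by_cases hz : ∃ z ∈ X, E i x z
      · have hv : E i x u ∨ ∃ z, E i x z ∧ E b z u := by
          obtain ⟨z, hzX, hzE⟩ := hz
          rw [hX, Finset.mem_insert] at hzX
          rcases hzX with rfl | hzR
          · left; exact hzE
          · right; exact ⟨z, hzE, (hR z hzR).2⟩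
        have h3 : ({y ∈ W | E a u y} : Finset V) ⊆ ({y ∈ W \ X | E' i x y} : Finset V) := by
          intro y hy
          have hy' := hNa hy
          rw [Finset.mem_filter] at hy
          rw [Finset.mem_filter]
          exact ⟨hy', Or.inr ⟨hv, hy.2⟩⟩
        exact ((hamax i hiL).trans (hdeg a haL u huW)).trans (Finset.card_le_card h3)
      · push Not at hz
        have h3 : ({y ∈ W | E i x y} : Finset V) ⊆ ({y ∈ W \ X | E' i x y} : Finset V) := by
          intro y hy
          rw [Finset.mem_filter] at hy
          rw [Finset.mem_filter, Finset.mem_sdiff]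
          exact ⟨⟨hy.1, fun hyX => hz y hyX hy.2⟩, Or.inl hy.2⟩
        exact (hdeg i hiL x (Finset.mem_sdiff.1 hx).1).trans (Finset.card_le_card h3)
    obtain ⟨x, K, hK, hRW⟩ := ih (W \ X) ((L.erase a).erase b) E' (r b) (by omega) hne
      (fun i hi => h1 i (Finset.mem_of_mem_erase (Finset.mem_of_mem_erase hi)))
      (fun i hi => hbmax i (Finset.mem_of_mem_erase hi))
      (fun i hi x hx => by convert hdeg' i hi x hx) (by
        have := hM a haL
        omega)
    have haK : a ∉ K := fun h => by
      have := Finset.mem_of_mem_erase (hK h)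
      exact (Finset.ne_of_mem_erase this) rfl
    have hbK : b ∉ K := fun h => (Finset.ne_of_mem_erase (hK h)) rfl
    obtain ⟨x', K', hK', hRW'⟩ := virt_closed E E' a b (fun h => hba h.symm) u
      (fun i x y h _ _ => h) K haK hbK x hRW
    refine ⟨x', K', ?_, hRW'⟩
    intro i hi
    have := hK' hi
    rw [Finset.mem_insert, Finset.mem_insert] at this
    rcases this with rfl | rfl | h
    · exact haL
    · exact hbL
    · exact Finset.mem_of_mem_erase (Finset.mem_of_mem_erase (hK h))

end RB496
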