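import Mathlib
import Pool.Agent.Helper496.RB.Ind
import Pool.Agent.Helper496.RB.IndEq
import Pool.Agent.Helper496.RB.Extr

set_option autoImplicit false

open Finset

namespace RB496

open Classical in
theorem final {V : Type} [Fintype V] [Nonempty V] (t : ℕ) (E : Fin t → V → V → Prop)
    (hloop : ∀ i v, ¬ E i v v) (n : ℕ) (hn : Fintype.card V = n) (r : Fin t → ℕ)
    (hr : ∀ i v, r i ≤ #{w | E i v w}) :
    ((∃ s : ℕ, 1 ≤ s ∧ (∀ i, r i = s) ∧ 2 * n ≤ t * (s + 1)) ∨
      (∃ M : ℕ, (∀ i, r i ≤ M) ∧ 2 * n + M ≤ ∑ i, r i) ∨ 3 * n ≤ ∑ i, r i + 1) →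
    ∃ (m : ℕ) (c : Fin (m + 2) → V) (l : Fin (m + 2) → Fin t), Function.Injective c ∧
      Function.Injective l ∧ ∀ j, E (l j) (c j) (c (j + 1)) := by
  have hn1 : 1 ≤ n := by
    rw [← hn]; exact Fintype.card_pos
  have hdn : ∀ i, r i + 1 ≤ n := by
    intro i
    obtain ⟨v0⟩ := ‹Nonempty V›
    have h1 := hr i v0
    have h2 : ({w | E i v0 w} : Finset V) ⊆ univ.erase v0 := by
      intro w hw
      rw [Finset.mem_filter] at hw
      refine Finset.mem_erase.2 ⟨?_, Finset.mem_univ _⟩
      rintro rfl
      exact hloop i _ hw.2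
    have h3 := Finset.card_le_card h2
    rw [Finset.card_erase_of_mem (Finset.mem_univ _), Finset.card_univ, hn] at h3
    omega
  have gen : ∀ M : ℕ, (∀ i, r i ≤ M) → 2 * n + M ≤ ∑ i, r i →
      ∃ (m : ℕ) (c : Fin (m + 2) → V) (l : Fin (m + 2) → Fin t), Function.Injective c ∧
      Function.Injective l ∧ ∀ j, E (l j) (c j) (c (j + 1)) := by
    intro M hM hsum
    have hfil : ∑ i ∈ (univ.filter (fun i => 1 ≤ r i)), (r i + 1) =
        ∑ i, r i + #(univ.filter (fun i => 1 ≤ r i)) := by
      rw [Finset.sum_add_distrib]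
      congr 1
      · apply Finset.sum_subset (Finset.filter_subset _ _)
        intro i _ hi
        rw [Finset.mem_filter] at hi
        by_contra h0
        exact hi ⟨Finset.mem_univ _, by omega⟩
      · simp
    have hpos : 1 ≤ #(univ.filter (fun i => 1 ≤ r i)) := by
      by_contra h0
      have h1 : univ.filter (fun i => 1 ≤ r i) = (∅ : Finset (Fin t)) := by
        rw [← Finset.card_eq_zero]; omega
      rw [h1] at hfil
      simp only [Finset.sum_empty, Finset.card_empty] at hfil
      omega
    obtain ⟨x, K, _, hRW⟩ := main_ind r n univ (univ.filter (fun i => 1 ≤ r i)) E M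
      (by rw [Finset.card_univ, hn]) Finset.univ_nonempty
      (fun i hi => (Finset.mem_filter.1 hi).2) (fun i _ => hM i)
      (fun i _ x _ => by convert hr i x) (by
        rw [hfil, Finset.card_univ, hn]
        omega)
    exact rainbow_extract E hloop K x hRW
  rintro (⟨s, hs, hrs, hts⟩ | ⟨M, hM, hsum⟩ | h3)
  · obtain ⟨x, K, _, hRW⟩ := main_eq s hs n univ (univ : Finset (Fin t)) E
      (by rw [Finset.card_univ, hn]) Finset.univ_nonempty
      (fun i _ x _ => by
        have := hr i x
        rw [hrs i] at this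
        convert this) (by
        rw [Finset.card_univ, Finset.card_univ, Fintype.card_fin, hn]
        exact hts)
    exact rainbow_extract E hloop K x hRW
  · exact gen M hM hsum
  · exact gen (n - 1) (fun i => by have := hdn i; omega) (by omega)

end RB496
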